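import Mathlib
import Pool.Agent.W2helper64.HE.Quad

set_option autoImplicit false

/-!
# Hereditary sets of shifts for almost primes `n ^ 2 + a`
-/

namespace Pool.Agent.W2helper64.Withdrawn.HereditaryAlmostPrimes

open Filter

/-- `n ≠ 0` is up to the sign a product of at most `r` primes, counted with multiplicity, all of them at
least `w`. -/
def AlmostPrime (r : ℕ) (w : ℝ) (n : ℤ) : Prop :=
  n ≠ 0 ∧ n.natAbs.primeFactorsList.length ≤ r ∧ ∀ q : ℕ, q.Prime → (q : ℤ) ∣ n → w ≤ q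

/-- The scale `N` is good for the shifts `H` and `n ^ 2 + a`: there are `1 ≤ d ≤ (log N) ^ C` and a progression
`u, u + d, ..., u + (l - 1) d` in `(N, N + N ^ (3 / 4)]` such that for all its terms `x` and all `h ∈ H` the number
`(x + h) ^ 2 + a` is up to the sign a product of at most three primes, all of them at least `N ^ (73 / 400)`. -/
def GoodScale (a : ℤ) (l C : ℕ) (H : Finset ℕ) (N : ℕ) : Prop := ∃ u d : ℕ, 1 ≤ d ∧ (d : ℝ) ≤ Real.log N ^ C ∧
  ∀ j < l, N < u + j * d ∧ ((u + j * d : ℕ) : ℝ) ≤ N + (N : ℝ) ^ (3 / 4 : ℝ) ∧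
    ∀ h ∈ H, AlmostPrime 3 ((N : ℝ) ^ (73 / 400 : ℝ)) (((u + j * d + h : ℕ) : ℤ) ^ 2 + a)

/-- `A` has positive upper density. -/
def PositiveUpperDensity (A : Set ℕ) : Prop :=
  ∃ δ : ℝ, 0 < δ ∧ ∃ᶠ N : ℕ in atTop, δ * N ≤ ((A ∩ Set.Icc 1 N).ncard : ℝ)

/-- **Hereditary sets of shifts.** Let `S` be a set of positive upper density. Every infinite set `V` of
nonnegative integers has an infinite subset `B` with the following property, for suitable `K(a, m)` and `C(a, l, H)`.
Let `a_1, ..., a_n` be integers not of the form `-m ^ 2`, let `l_1, ..., l_n` be given and let `H_1, ..., H_n` be finite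
subsets of `B` whose elements are at least `K(a_i, #H_i)`. Then the set of the scales `N` in `S` which are good for all
`n ^ 2 + a_i` and the shifts `H_i` simultaneously, with the length `l_i` and the exponent `C(a_i, l_i, H_i)`, has
positive upper density. -/
theorem result (S : Set ℕ) (hS : PositiveUpperDensity S) (V : Set ℕ) (hV : V.Infinite) : ∃ B ⊆ V, B.Infinite ∧
    ∃ (K : ℤ → ℕ → ℕ) (C : ℤ → ℕ → Finset ℕ → ℕ), ∀ F : Finset (ℤ × ℕ × Finset ℕ),
      (∀ x ∈ F, ¬ IsSquare (-x.1) ∧ (x.2.2 : Set ℕ) ⊆ B ∧ ∀ h ∈ x.2.2, K x.1 x.2.2.card ≤ h) →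
      PositiveUpperDensity {N | N ∈ S ∧ ∀ x ∈ F, GoodScale x.1 x.2.1 (C x.1 x.2.1 x.2.2) x.2.2 N} :=
  Pool.Agent.W2helper64.HE.main_dens S hS V hV

end Pool.Agent.W2helper64.Withdrawn.HereditaryAlmostPrimes
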